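import Pool.Agent.N789.Kl.Code

/-!
Klarner's constant: existence, the window criterion for upper bounds, and a computable strictly
decreasing sequence of rational numbers converging to it.
-/

namespace Pool.Agent.N789.Kl

open Filter Topology

/-! ### the window criterion -/

/-- `μ` passes the test on the window `[k, 4 k + 4]` -/
def Window (k : ℕ) (μ : ℝ) : Prop :=
  ∀ j, k ≤ j → j ≤ 4 * k + 4 → 256 * (j : ℝ) ^ 2 * a j ≤ μ ^ j

lemma prod_bound {n p q : ℕ} (h : p + q = n) (h1 : n ≤ 4 * p + 1) (h2 : n ≤ 4 * q + 1)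
    (hn : 9 ≤ n) : n ^ 2 ≤ 7 * (p * q) := by
  have h3 : (0 : ℤ) ≤ (4 * p + 1 - n) * (4 * q + 1 - n) := by
    apply mul_nonneg
    · omega
    · omega
  have h4 : (n : ℤ) = p + q := by omega
  have h5 : (n : ℤ) ^ 2 ≤ 7 * (p * q) := by
    have h6 : (9 : ℤ) ≤ n := by exact_mod_cast hn
    have h7 : (16 : ℤ) * (p * q) ≥ (n - 1) * (3 * n + 1) := by
      have : (4 * (p : ℤ) + 1 - n) * (4 * q + 1 - n) =
          16 * (p * q) + 4 * (1 - n) * (p + q) + (1 - n) ^ 2 := by ring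
      rw [this, ← h4] at h3
      nlinarith
    nlinarith
  exact_mod_cast h5

/-- **Key induction.** A bound valid on one window `[k, 4k+4]` propagates to all `n ≥ k`. -/
theorem window_all {k : ℕ} (hk : 1 ≤ k) {μ : ℝ} (hμ : 0 ≤ μ) (h : Window k μ) :
    ∀ n, k ≤ n → 256 * (n : ℝ) ^ 2 * a n ≤ μ ^ n := by
  intro n
  induction n using Nat.strong_induction_on with
  | _ n ih =>
    intro hkn
    by_cases hn4 : n ≤ 4 * k + 4
    · exact h n hkn hn4
    push Not at hn4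
    have hn9 : 9 ≤ n := by omega
    have hnpos : (0 : ℝ) < n := by exact_mod_cast (by omega : 0 < n)
    have h1 : (a n : ℝ) ≤ n * t n := by exact_mod_cast a_le n
    set I := (Finset.HasAntidiagonal.antidiagonal n).filter
      (fun p => n ≤ 4 * p.1 + 1 ∧ n ≤ 4 * p.2 + 1) with hI
    have h2 : (t n : ℝ) ≤ ∑ p ∈ I, 4 * ((a p.1 : ℝ) * a p.2) := by
      have := t_le_split (n := n) (by omega)
      exact_mod_cast this
    have h3 : ∀ p ∈ I, 4 * ((a p.1 : ℝ) * a p.2) ≤ μ ^ n * (196 / (65536 * (n : ℝ) ^ 4)) := by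
      intro p hp
      rw [hI, Finset.mem_filter, Finset.HasAntidiagonal.mem_antidiagonal] at hp
      obtain ⟨hpn, hp1, hp2⟩ := hp
      have i1 := ih p.1 (by omega) (by omega)
      have i2 := ih p.2 (by omega) (by omega)
      have hq : ((n : ℝ)) ^ 2 ≤ 7 * ((p.1 : ℝ) * p.2) := by
        exact_mod_cast prod_bound hpn hp1 hp2 hn9
      have hppos : (0 : ℝ) < (p.1 : ℝ) * p.2 := by
        have : (0 : ℝ) < (n : ℝ) ^ 2 := by positivity
        linarith
      have ha1 : (0 : ℝ) ≤ a p.1 := Nat.cast_nonneg _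
      have ha2 : (0 : ℝ) ≤ a p.2 := Nat.cast_nonneg _
      have hmul : (256 * (p.1 : ℝ) ^ 2 * a p.1) * (256 * (p.2 : ℝ) ^ 2 * a p.2) ≤
          μ ^ p.1 * μ ^ p.2 := mul_le_mul i1 i2 (by positivity) (by positivity)
      rw [← pow_add, hpn] at hmul
      have hmul2 : 65536 * ((p.1 : ℝ) * p.2) ^ 2 * (a p.1 * a p.2) ≤ μ ^ n := by
        calc _ = (256 * (p.1 : ℝ) ^ 2 * a p.1) * (256 * (p.2 : ℝ) ^ 2 * a p.2) := by ring
          _ ≤ _ := hmul
      have hsq : (n : ℝ) ^ 4 ≤ 49 * ((p.1 : ℝ) * p.2) ^ 2 := by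
        have : ((n : ℝ) ^ 2) ^ 2 ≤ (7 * ((p.1 : ℝ) * p.2)) ^ 2 :=
          pow_le_pow_left₀ (by positivity) hq 2
        nlinarith
      rw [mul_div_assoc', le_div_iff₀ (by positivity)]
      have haa : (0 : ℝ) ≤ a p.1 * a p.2 := by positivity
      nlinarith [mul_le_mul_of_nonneg_right hsq haa]
    have hcard : (I.card : ℝ) ≤ n + 1 := by
      have : I.card ≤ n + 1 := by
        refine le_trans (Finset.card_filter_le _ _) ?_
        simp
      exact_mod_cast this
    have h4 : (t n : ℝ) ≤ (n + 1) * (μ ^ n * (196 / (65536 * (n : ℝ) ^ 4))) := by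
      refine h2.trans ((Finset.sum_le_card_nsmul I _ _ h3).trans ?_)
      rw [nsmul_eq_mul]
      apply mul_le_mul_of_nonneg_right hcard
      positivity
    have h5 : (n : ℝ) + 1 ≤ 10 / 9 * n := by
      have : (9 : ℝ) ≤ n := by exact_mod_cast hn9
      linarith
    have hμn : (0 : ℝ) ≤ μ ^ n := by positivity
    calc 256 * (n : ℝ) ^ 2 * a n ≤ 256 * (n : ℝ) ^ 2 * (n * t n) := by gcongr
      _ ≤ 256 * (n : ℝ) ^ 2 * (n * ((n + 1) * (μ ^ n * (196 / (65536 * (n : ℝ) ^ 4))))) := by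
          gcongr
      _ ≤ 256 * (n : ℝ) ^ 2 * (n * ((10 / 9 * n) * (μ ^ n * (196 / (65536 * (n : ℝ) ^ 4))))) := by
          gcongr
      _ = μ ^ n * (501760 / 589824) := by
          field_simp
          ring
      _ ≤ μ ^ n := by nlinarith

/-! ### Klarner's constant -/

lemma t_zero : t 0 = 0 := by
  rw [t_eq, Finset.card_eq_zero, Finset.eq_empty_iff_forall_notMem]
  intro P hP
  rw [mem_Tm] at hP
  have := hP.2.2.1
  rw [Finset.card_eq_zero.1 hP.1] at this
  simp at this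

lemma t_one : 1 ≤ t 1 := by
  rw [t_eq]
  apply Finset.card_pos.2
  refine ⟨{0}, mem_Tm.2 ⟨by simp, ?_, by simp, ?_⟩⟩
  · apply conn_of_root (r := 0) (by simp)
    intro b hb
    rw [Finset.mem_singleton] at hb
    rw [hb]
  · intro c hc
    rw [Finset.mem_singleton] at hc
    rw [hc]
    exact le_refl _

lemma t_pos {n : ℕ} (hn : 1 ≤ n) : 1 ≤ t n := by
  induction n, hn using Nat.le_induction with
  | base => exact t_one
  | succ n _ ih =>
    refine le_trans ?_ (t_mul_le n 1)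
    have := Nat.mul_le_mul ih t_one
    simpa using this

/-- the exponential bound -/
lemma exists_bound : ∃ D : ℕ, 1 ≤ D ∧ Window 1 D := by
  have hS : ∀ j, j ≤ 8 → 256 * j ^ 2 * a j ≤ ∑ j ∈ Finset.range 9, 256 * j ^ 2 * a j := by
    intro j hj
    exact Finset.single_le_sum (f := fun j => 256 * j ^ 2 * a j) (fun _ _ => Nat.zero_le _)
      (Finset.mem_range.2 (by omega))
  generalize (∑ j ∈ Finset.range 9, 256 * j ^ 2 * a j) = S at hS
  refine ⟨S + 1, by omega, ?_⟩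
  intro j hj1 hj2
  have h1 := hS j (by omega)
  have h3 : S + 1 ≤ (S + 1) ^ j := Nat.le_self_pow (by omega) _
  have h2 : 256 * j ^ 2 * a j ≤ (S + 1) ^ j := by
    refine le_trans h1 (le_trans (Nat.le_succ _) h3)
  exact_mod_cast h2

lemma t_le_pow {k : ℕ} (hk : 1 ≤ k) {μ : ℝ} (hμ : 0 ≤ μ) (h : Window k μ) {n : ℕ}
    (hn : k ≤ n) : (t n : ℝ) ≤ μ ^ n := by
  have h1 := window_all hk hμ h n hn
  have h2 : (t n : ℝ) ≤ a n := by exact_mod_cast t_le_a n
  have h3 : (1 : ℝ) ≤ n := by exact_mod_cast (by omega : 1 ≤ n)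
  have h4 : (0 : ℝ) ≤ a n := Nat.cast_nonneg _
  have h5 : (1 : ℝ) ≤ 256 * (n : ℝ) ^ 2 := by nlinarith
  nlinarith

/-- minus the logarithm of the number of fixed polyominoes -/
noncomputable def u (n : ℕ) : ℝ := -Real.log (t n)

lemma u_sub : Subadditive u := by
  intro m n
  unfold u
  rcases Nat.eq_zero_or_pos m with rfl | hm
  · rw [t_zero]; simp
  rcases Nat.eq_zero_or_pos n with rfl | hn
  · rw [t_zero]; simp
  have h1 : (0 : ℝ) < t m := by exact_mod_cast t_pos hm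
  have h2 : (0 : ℝ) < t n := by exact_mod_cast t_pos hn
  have h3 : (t m : ℝ) * t n ≤ t (m + n) := by exact_mod_cast t_mul_le m n
  have h4 := Real.log_le_log (by positivity) h3
  rw [Real.log_mul h1.ne' h2.ne'] at h4
  linarith

lemma u_bdd : BddBelow (Set.range fun n : ℕ => u n / n) := by
  obtain ⟨D, hD, hW⟩ := exists_bound
  have hD1 : (1 : ℝ) ≤ D := by exact_mod_cast hD
  have hlogD : 0 ≤ Real.log D := Real.log_nonneg hD1
  refine ⟨-Real.log D, ?_⟩
  rintro _ ⟨n, rfl⟩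
  simp only
  rcases Nat.eq_zero_or_pos n with rfl | hn
  · simp [hlogD]
  have h1 : (t n : ℝ) ≤ (D : ℝ) ^ n := t_le_pow le_rfl (by positivity) hW hn
  have h2 : (0 : ℝ) < t n := by exact_mod_cast t_pos hn
  have h3 := Real.log_le_log h2 h1
  rw [Real.log_pow] at h3
  have hn' : (0 : ℝ) < n := by exact_mod_cast hn
  rw [le_div_iff₀ hn']
  unfold u
  linarith

/-- Klarner's constant -/
noncomputable def lam : ℝ := Real.exp (-(u_sub.lim))

lemma lam_pos : 0 < lam := Real.exp_pos _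

theorem tendsto_lam : Tendsto (fun n : ℕ => (t n : ℝ) ^ ((1 : ℝ) / n)) atTop (𝓝 lam) := by
  have h1 := u_sub.tendsto_lim u_bdd
  have h2 : Tendsto (fun n : ℕ => Real.exp (-(u n / n))) atTop (𝓝 lam) :=
    (Real.continuous_exp.tendsto _).comp h1.neg
  refine h2.congr' ?_
  filter_upwards [eventually_ge_atTop 1] with n hn
  have h3 : (0 : ℝ) < t n := by exact_mod_cast t_pos hn
  rw [Real.rpow_def_of_pos h3]
  congr 1
  unfold u
  ring

lemma t_le_lam (n : ℕ) : (t n : ℝ) ≤ lam ^ n := by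
  rcases Nat.eq_zero_or_pos n with rfl | hn
  · rw [t_zero]; simp
  have h1 := u_sub.lim_le_div u_bdd (by omega : n ≠ 0)
  have h3 : (0 : ℝ) < t n := by exact_mod_cast t_pos hn
  have hn' : (0 : ℝ) < n := by exact_mod_cast hn
  rw [le_div_iff₀ hn'] at h1
  unfold lam
  rw [← Real.exp_nat_mul, ← Real.log_le_iff_le_exp h3]
  have h5 : u_sub.lim * n ≤ -Real.log (t n) := h1
  have h4 : (n : ℝ) * -u_sub.lim = -(u_sub.lim * n) := by ring
  rw [h4]
  linarith

lemma one_le_lam : 1 ≤ lam := by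
  have h1 := t_le_lam 1
  have h2 : (1 : ℝ) ≤ t 1 := by exact_mod_cast t_one
  rw [pow_one] at h1
  linarith

/-- every `μ` passing a window test is an upper bound -/
theorem lam_le {k : ℕ} (hk : 1 ≤ k) {μ : ℝ} (hμ : 0 ≤ μ) (h : Window k μ) : lam ≤ μ := by
  apply le_of_tendsto tendsto_lam
  filter_upwards [eventually_ge_atTop k] with n hn
  have h1 := t_le_pow hk hμ h hn
  have hn0 : n ≠ 0 := by omega
  calc (t n : ℝ) ^ ((1 : ℝ) / n) ≤ (μ ^ n) ^ ((1 : ℝ) / n) :=
        Real.rpow_le_rpow (Nat.cast_nonneg _) h1 (by positivity)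
    _ = μ := by
        rw [one_div]
        exact Real.pow_rpow_inv_natCast hμ hn0

/-- the explicit error factor -/
noncomputable def err (k : ℕ) : ℝ := (256 * (4 * (k : ℝ) + 4) ^ 3) ^ ((1 : ℝ) / k)

lemma window_lam {k : ℕ} (hk : 1 ≤ k) {μ : ℝ} (hμ : lam * err k ≤ μ) : Window k μ := by
  intro j hj1 hj2
  have hkR : (1 : ℝ) ≤ k := by exact_mod_cast hk
  have hjk : (j : ℝ) ≤ 4 * k + 4 := by exact_mod_cast hj2
  have hj0 : (0 : ℝ) ≤ j := Nat.cast_nonneg _
  set B : ℝ := 256 * (4 * (k : ℝ) + 4) ^ 3 with hB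
  have hB1 : 1 ≤ B := by
    rw [hB]
    have : (1 : ℝ) ≤ (4 * (k : ℝ) + 4) ^ 3 := one_le_pow₀ (by linarith)
    linarith
  have h1 : (a j : ℝ) ≤ j * lam ^ j := by
    have h1 : (a j : ℝ) ≤ j * t j := by exact_mod_cast a_le j
    refine h1.trans ?_
    gcongr
    exact t_le_lam j
  have herr : B ≤ err k ^ j := by
    unfold err
    rw [← hB]
    have h2 : (B ^ ((1 : ℝ) / k)) ^ k = B := by
      rw [one_div]
      exact Real.rpow_inv_natCast_pow (by linarith) (by omega)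
    calc B = (B ^ ((1 : ℝ) / k)) ^ k := h2.symm
      _ ≤ (B ^ ((1 : ℝ) / k)) ^ j := pow_le_pow_right₀ (Real.one_le_rpow hB1 (by positivity)) hj1
  have hl := lam_pos
  have h3 : 256 * (j : ℝ) ^ 3 ≤ B := by
    rw [hB]
    have : (j : ℝ) ^ 3 ≤ (4 * k + 4) ^ 3 := pow_le_pow_left₀ hj0 hjk 3
    linarith
  have herrpos : 0 ≤ err k := by unfold err; positivity
  calc 256 * (j : ℝ) ^ 2 * a j ≤ 256 * (j : ℝ) ^ 2 * (j * lam ^ j) := by gcongr
    _ = (256 * (j : ℝ) ^ 3) * lam ^ j := by ring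
    _ ≤ B * lam ^ j := by gcongr
    _ ≤ err k ^ j * lam ^ j := by gcongr
    _ = (lam * err k) ^ j := by rw [mul_pow]; ring
    _ ≤ μ ^ j := pow_le_pow_left₀ (by positivity) hμ j

/-! ### the computable sequence -/

/-- `m / 2 ^ n` passes the window test for some `k ∈ [1, n + 1]` -/
def Test (m n : ℕ) : Prop :=
  ∃ k < n + 1, ∀ i < 3 * k + 8,
    256 * (k + 1 + i) ^ 2 * a (k + 1 + i) * (2 ^ n) ^ (k + 1 + i) ≤ m ^ (k + 1 + i)

lemma test_iff {m n : ℕ} : Test m n ↔ ∃ k, 1 ≤ k ∧ k ≤ n + 1 ∧ Window k ((m : ℝ) / 2 ^ n) := by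
  have key : ∀ j : ℕ, 256 * j ^ 2 * a j * (2 ^ n) ^ j ≤ m ^ j ↔
      256 * (j : ℝ) ^ 2 * a j ≤ ((m : ℝ) / 2 ^ n) ^ j := by
    intro j
    rw [div_pow, le_div_iff₀ (by positivity)]
    exact_mod_cast Iff.rfl
  constructor
  · rintro ⟨k, hk, h⟩
    refine ⟨k + 1, by omega, by omega, ?_⟩
    intro j hj1 hj2
    have := h (j - (k + 1)) (by omega)
    rw [show k + 1 + (j - (k + 1)) = j by omega] at this
    exact (key j).1 this
  · rintro ⟨k, hk1, hk2, h⟩
    refine ⟨k - 1, by omega, ?_⟩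
    intro i hi
    rw [show k - 1 + 1 + i = k + i by omega]
    exact (key (k + i)).2 (h (k + i) (by omega) (by omega))

lemma test_mono {m m' n : ℕ} (h : Test m n) (hm : m ≤ m') : Test m' n := by
  obtain ⟨k, hk, h⟩ := h
  exact ⟨k, hk, fun i hi => (h i hi).trans (Nat.pow_le_pow_left hm _)⟩

lemma test_double {m n : ℕ} (h : Test m n) : Test (2 * m) (n + 1) := by
  rw [test_iff] at *
  obtain ⟨k, hk1, hk2, h⟩ := h
  refine ⟨k, hk1, by omega, ?_⟩
  have : ((2 * m : ℕ) : ℝ) / 2 ^ (n + 1) = (m : ℝ) / 2 ^ n := by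
    push_cast
    rw [pow_succ]
    field_simp
  rw [this]
  exact h

/-- a number passing the first window test -/
noncomputable def D : ℕ := Classical.choose exists_bound

lemma test_D (n : ℕ) : Test (D * 2 ^ n) n := by
  rw [test_iff]
  refine ⟨1, le_rfl, by omega, ?_⟩
  have : ((D * 2 ^ n : ℕ) : ℝ) / 2 ^ n = D := by
    push_cast
    field_simp
  rw [this]
  exact (Classical.choose_spec exists_bound).2

/-- the least `m` such that `m / 2 ^ n` passes a test -/
noncomputable def M (n : ℕ) : ℕ := cntR (fun m n => ¬ Test m n) (D * 2 ^ n) n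

lemma M_eq (n : ℕ) : Test (M n) n ∧ ∀ m < M n, ¬ Test m n := by
  classical
  have hex : ∃ m, Test m n := ⟨_, test_D n⟩
  have hfD : Nat.find hex ≤ D * 2 ^ n := Nat.find_min' hex (test_D n)
  have : M n = Nat.find hex := by
    unfold M
    rw [cntR_eq]
    refine Eq.trans ?_ (Finset.card_range (Nat.find hex))
    apply congrArg Finset.card
    ext m
    simp only [Finset.mem_filter, Finset.mem_range]
    constructor
    · rintro ⟨_, h2⟩
      by_contra hcon
      push Not at hcon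
      exact h2 (test_mono (Nat.find_spec hex) hcon)
    · intro h
      exact ⟨by omega, Nat.find_min hex h⟩
  rw [this]
  exact ⟨Nat.find_spec hex, fun m hm => Nat.find_min hex hm⟩

lemma M_le {n m : ℕ} (h : Test m n) : M n ≤ m := by
  by_contra hcon
  push Not at hcon
  exact (M_eq n).2 m hcon h

section prim
open Primrec

lemma primrec_test : PrimrecRel Test := by
  have h1 : PrimrecRel (fun (i : ℕ) (b : ℕ × ℕ × ℕ) =>
      256 * (b.1 + 1 + i) ^ 2 * a (b.1 + 1 + i) * (2 ^ b.2.2) ^ (b.1 + 1 + i) ≤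
        b.2.1 ^ (b.1 + 1 + i)) := by
    have hi : Primrec (fun p : ℕ × ℕ × ℕ × ℕ => p.1) := fst
    have hk : Primrec (fun p : ℕ × ℕ × ℕ × ℕ => p.2.1) := fst.comp snd
    have hm : Primrec (fun p : ℕ × ℕ × ℕ × ℕ => p.2.2.1) := fst.comp (snd.comp snd)
    have hn : Primrec (fun p : ℕ × ℕ × ℕ × ℕ => p.2.2.2) := snd.comp (snd.comp snd)
    have hj : Primrec (fun p : ℕ × ℕ × ℕ × ℕ => p.2.1 + 1 + p.1) :=
      nat_add.comp (succ.comp hk) hi
    have h2n : Primrec (fun p : ℕ × ℕ × ℕ × ℕ => 2 ^ p.2.2.2) :=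
      primrec_pow.comp (Primrec.const 2) hn
    exact nat_le.comp (nat_mul.comp (nat_mul.comp (nat_mul.comp (Primrec.const 256)
      (primrec_pow.comp hj (Primrec.const 2))) (primrec_a.comp hj)) (primrec_pow.comp h2n hj))
      (primrec_pow.comp hm hj)
  have h2 := rel_all_lt h1
  have h3 : PrimrecRel (fun (k : ℕ) (b : ℕ × ℕ) => ∀ i < 3 * k + 8,
      256 * (k + 1 + i) ^ 2 * a (k + 1 + i) * (2 ^ b.2) ^ (k + 1 + i) ≤ b.1 ^ (k + 1 + i)) :=
    h2.comp (nat_add.comp (nat_mul.comp (Primrec.const 3) fst) (Primrec.const 8)) Primrec.id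
  exact (rel_ex_lt h3).comp (succ.comp snd) Primrec.id

lemma primrec_M : Primrec M := by
  have h : PrimrecRel (fun m n : ℕ => ¬ Test m n) := primrec_test.not
  exact (primrec_cntR h).comp (nat_mul.comp (Primrec.const D) (primrec_pow.comp
    (Primrec.const 2) Primrec.id)) Primrec.id

end prim

lemma lam_le_M (n : ℕ) : lam ≤ (M n : ℝ) / 2 ^ n := by
  obtain ⟨k, hk1, _, h⟩ := test_iff.1 (M_eq n).1
  exact lam_le hk1 (by positivity) h

lemma M_le_lam (n : ℕ) : (M n : ℝ) / 2 ^ n ≤ lam * err (n + 1) + 1 / 2 ^ n := by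
  have hpow : (0 : ℝ) < 2 ^ n := by positivity
  have h0 : 0 ≤ lam * err (n + 1) := by
    have := lam_pos
    unfold err
    positivity
  set m : ℕ := ⌈lam * err (n + 1) * 2 ^ n⌉₊ with hm
  have h1 : lam * err (n + 1) * 2 ^ n ≤ m := Nat.le_ceil _
  have h2 : (m : ℝ) < lam * err (n + 1) * 2 ^ n + 1 := Nat.ceil_lt_add_one (by positivity)
  have h3 : Test m n := by
    rw [test_iff]
    refine ⟨n + 1, by omega, le_rfl, window_lam (by omega) ?_⟩
    rw [le_div_iff₀ hpow]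
    exact h1
  have h4 : (M n : ℝ) ≤ m := by exact_mod_cast M_le h3
  rw [div_le_iff₀ hpow, add_mul]
  have : (1 : ℝ) / 2 ^ n * 2 ^ n = 1 := by field_simp
  rw [this]
  linarith

end Pool.Agent.N789.Kl
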