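import Pool.Agent.N789.Kl.Count

/-!
The number `a n` of `n`-ominoes containing the origin is a primitive recursive function of `n`.
-/

namespace Pool.Agent.N789.Kl

open Relation

/-! ### general facts on primitive recursive predicates -/

lemma rel_ex_lt {β : Type*} [Primcodable β] {R : ℕ → β → Prop} (h : PrimrecRel R) :
    PrimrecRel (fun (n : ℕ) (b : β) => ∃ x < n, R x b) :=
  (h.exists_mem_list.comp (Primrec.list_range.comp Primrec.fst) Primrec.snd).of_eq (by simp)

lemma rel_all_lt {β : Type*} [Primcodable β] {R : ℕ → β → Prop} (h : PrimrecRel R) :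
    PrimrecRel (fun (n : ℕ) (b : β) => ∀ x < n, R x b) :=
  (h.forall_mem_list.comp (Primrec.list_range.comp Primrec.fst) Primrec.snd).of_eq (by simp)

open Classical in
/-- number of `x < n` with `R x b` -/
noncomputable def cntR {β : Type*} (R : ℕ → β → Prop) (n : ℕ) (b : β) : ℕ :=
  ((List.range n).filter (fun x => R x b)).length

open Classical in
lemma cntR_eq {β : Type*} (R : ℕ → β → Prop) (n : ℕ) (b : β) :
    cntR R n b = ((Finset.range n).filter (fun x => R x b)).card := by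
  unfold cntR
  rfl

lemma primrec_cntR {β : Type*} [Primcodable β] {R : ℕ → β → Prop} (h : PrimrecRel R) :
    Primrec₂ (cntR R) := by
  classical
  exact Primrec.list_length.comp (h.listFilter.comp (Primrec.list_range.comp Primrec.fst)
    Primrec.snd)

lemma primrec_pow : Primrec₂ (fun a b : ℕ => a ^ b) := by
  have h : Primrec₂ (fun (a : ℕ) (b : ℕ) =>
      (Nat.rec 1 (fun _ ih => ih * a) b : ℕ)) := by
    apply Primrec.nat_rec (f := fun _ => 1) (g := fun a p => p.2 * a) (Primrec.const 1)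
    exact Primrec.nat_mul.comp (Primrec.snd.comp Primrec.snd) Primrec.fst
  refine h.of_eq (fun a b => ?_)
  induction b with
  | zero => simp
  | succ b ih => simp only [pow_succ]; rw [← ih]

/-- the `i`-th binary digit of `s` is one -/
def bit (s i : ℕ) : Prop := s.testBit i = true

lemma primrec_bit : PrimrecRel bit := by
  have h : PrimrecRel (fun s i : ℕ => s / 2 ^ i % 2 = 1) := by
    refine Primrec.eq.comp (Primrec.nat_mod.comp (Primrec.nat_div.comp Primrec.fst
      (primrec_pow.comp (Primrec.const 2) Primrec.snd)) (Primrec.const 2)) (Primrec.const 1)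
  refine h.of_eq (fun s i => ?_)
  unfold bit
  rw [Nat.testBit_eq_decide_div_mod_eq]
  simp

/-! ### codes -/

/-- adjacency of cell numbers, side length `M` -/
def AdjI (M i j : ℕ) : Prop :=
  (i / M = j / M ∧ (i % M = j % M + 1 ∨ j % M = i % M + 1)) ∨
    (i % M = j % M ∧ (i / M = j / M + 1 ∨ j / M = i / M + 1))

/-- the cut `r ⊆ s` is crossed by an adjacent pair -/
def Crossed (M r s : ℕ) : Prop :=
  ∃ i < M * M, ∃ j < M * M, bit r i ∧ bit s j ∧ ¬ bit r j ∧ AdjI M i j

/-- all cuts of `s` are crossed -/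
def ConnI (M s : ℕ) : Prop :=
  ∀ r < 2 ^ (M * M), (∀ i < M * M, bit r i → bit s i) → (∃ i < M * M, bit r i) →
    (∃ i < M * M, bit s i ∧ ¬ bit r i) → Crossed M r s

/-- `s` codes an `n`-omino containing the centre of the box of side `2 n + 1` -/
def Good (s n : ℕ) : Prop :=
  cntR (fun i s => bit s i) ((2 * n + 1) * (2 * n + 1)) s = n ∧
    bit s (n * (2 * n + 1) + n) ∧ ConnI (2 * n + 1) s

/-- the primitive recursive count -/
noncomputable def c (n : ℕ) : ℕ := cntR Good (2 ^ ((2 * n + 1) * (2 * n + 1))) n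

section prim
open Primrec

lemma primrec_adjI : PrimrecPred (fun p : ℕ × ℕ × ℕ => AdjI p.1 p.2.1 p.2.2) := by
  have hM : Primrec (fun p : ℕ × ℕ × ℕ => p.1) := fst
  have hi : Primrec (fun p : ℕ × ℕ × ℕ => p.2.1) := fst.comp snd
  have hj : Primrec (fun p : ℕ × ℕ × ℕ => p.2.2) := snd.comp snd
  have hid := nat_div.comp hi hM
  have hjd := nat_div.comp hj hM
  have him := nat_mod.comp hi hM
  have hjm := nat_mod.comp hj hM
  exact ((Primrec.eq.comp hid hjd).and ((Primrec.eq.comp him (succ.comp hjm)).or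
    (Primrec.eq.comp hjm (succ.comp him)))).or ((Primrec.eq.comp him hjm).and
    ((Primrec.eq.comp hid (succ.comp hjd)).or (Primrec.eq.comp hjd (succ.comp hid))))

lemma primrec_crossed : PrimrecPred (fun p : ℕ × ℕ × ℕ => Crossed p.1 p.2.1 p.2.2) := by
  -- innermost relation in `j` with parameter `(i, (M, r, s))`
  have h1 : PrimrecRel (fun (j : ℕ) (b : ℕ × ℕ × ℕ × ℕ) =>
      bit b.2.2.1 b.1 ∧ bit b.2.2.2 j ∧ ¬ bit b.2.2.1 j ∧ AdjI b.2.1 b.1 j) := by
    have hj : Primrec (fun p : ℕ × ℕ × ℕ × ℕ × ℕ => p.1) := fst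
    have hi : Primrec (fun p : ℕ × ℕ × ℕ × ℕ × ℕ => p.2.1) := fst.comp snd
    have hM : Primrec (fun p : ℕ × ℕ × ℕ × ℕ × ℕ => p.2.2.1) := fst.comp (snd.comp snd)
    have hr : Primrec (fun p : ℕ × ℕ × ℕ × ℕ × ℕ => p.2.2.2.1) :=
      fst.comp (snd.comp (snd.comp snd))
    have hs : Primrec (fun p : ℕ × ℕ × ℕ × ℕ × ℕ => p.2.2.2.2) :=
      snd.comp (snd.comp (snd.comp snd))
    exact (primrec_bit.comp hr hi).and ((primrec_bit.comp hs hj).and
      ((primrec_bit.comp hr hj).not.and (primrec_adjI.comp (hM.pair (hi.pair hj)))))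
  have h2 := rel_ex_lt h1
  have h3 : PrimrecRel (fun (i : ℕ) (b : ℕ × ℕ × ℕ) =>
      ∃ j < b.1 * b.1, bit b.2.1 i ∧ bit b.2.2 j ∧ ¬ bit b.2.1 j ∧ AdjI b.1 i j) :=
    h2.comp (nat_mul.comp (fst.comp snd) (fst.comp snd)) Primrec.id
  exact (rel_ex_lt h3).comp (nat_mul.comp fst fst) Primrec.id

lemma primrec_connI : PrimrecPred (fun p : ℕ × ℕ => ConnI p.1 p.2) := by
  -- relation in `r` with parameter `(M, s)`
  have hr : Primrec (fun p : ℕ × ℕ × ℕ => p.1) := fst
  have hM : Primrec (fun p : ℕ × ℕ × ℕ => p.2.1) := fst.comp snd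
  have hs : Primrec (fun p : ℕ × ℕ × ℕ => p.2.2) := snd.comp snd
  have hMM : Primrec (fun p : ℕ × ℕ × ℕ => p.2.1 * p.2.1) := nat_mul.comp hM hM
  have hA : PrimrecPred (fun p : ℕ × ℕ × ℕ => ∀ i < p.2.1 * p.2.1, bit p.1 i → bit p.2.2 i) := by
    have h : PrimrecRel (fun (i : ℕ) (b : ℕ × ℕ × ℕ) => ¬ bit b.1 i ∨ bit b.2.2 i) :=
      (primrec_bit.comp (fst.comp snd) fst).not.or
        (primrec_bit.comp (snd.comp (snd.comp snd)) fst)
    exact ((rel_all_lt h).comp hMM Primrec.id).of_eq (fun p => by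
      simp only [imp_iff_not_or, id_eq])
  have hB : PrimrecPred (fun p : ℕ × ℕ × ℕ => ∃ i < p.2.1 * p.2.1, bit p.1 i) := by
    have h : PrimrecRel (fun (i : ℕ) (b : ℕ × ℕ × ℕ) => bit b.1 i) :=
      primrec_bit.comp (fst.comp snd) fst
    exact (rel_ex_lt h).comp hMM Primrec.id
  have hC : PrimrecPred (fun p : ℕ × ℕ × ℕ => ∃ i < p.2.1 * p.2.1, bit p.2.2 i ∧ ¬ bit p.1 i) := by
    have h : PrimrecRel (fun (i : ℕ) (b : ℕ × ℕ × ℕ) => bit b.2.2 i ∧ ¬ bit b.1 i) :=
      (primrec_bit.comp (snd.comp (snd.comp snd)) fst).and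
        (primrec_bit.comp (fst.comp snd) fst).not
    exact (rel_ex_lt h).comp hMM Primrec.id
  have hD : PrimrecPred (fun p : ℕ × ℕ × ℕ => Crossed p.2.1 p.1 p.2.2) :=
    primrec_crossed.comp (hM.pair (hr.pair hs))
  have hR : PrimrecRel (fun (r : ℕ) (b : ℕ × ℕ) =>
      (∀ i < b.1 * b.1, bit r i → bit b.2 i) → (∃ i < b.1 * b.1, bit r i) →
        (∃ i < b.1 * b.1, bit b.2 i ∧ ¬ bit r i) → Crossed b.1 r b.2) := by
    have := (hA.not.or (hB.not.or (hC.not.or hD)))
    refine this.of_eq (fun p => ?_)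
    simp only [imp_iff_not_or]
  have h2 : Primrec (fun p : ℕ × ℕ => 2 ^ (p.1 * p.1)) :=
    primrec_pow.comp (Primrec.const 2) (nat_mul.comp fst fst)
  exact (rel_all_lt hR).comp h2 Primrec.id

lemma primrec_good : PrimrecRel Good := by
  have hs : Primrec (fun p : ℕ × ℕ => p.1) := fst
  have hn : Primrec (fun p : ℕ × ℕ => p.2) := snd
  have hM : Primrec (fun p : ℕ × ℕ => 2 * p.2 + 1) :=
    succ.comp (nat_mul.comp (Primrec.const 2) hn)
  have h1 : Primrec₂ (cntR (fun i s => bit s i)) := by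
    apply primrec_cntR
    exact primrec_bit.comp snd fst
  exact (Primrec.eq.comp (h1.comp (nat_mul.comp hM hM) hs) hn).and
    ((primrec_bit.comp hs (nat_add.comp (nat_mul.comp hn hM) hn)).and
      (primrec_connI.comp (hM.pair hs)))

lemma primrec_c : Primrec c := by
  have hM : Primrec (fun n : ℕ => 2 * n + 1) :=
    succ.comp (nat_mul.comp (Primrec.const 2) Primrec.id)
  exact (primrec_cntR primrec_good).comp (primrec_pow.comp (Primrec.const 2)
    (nat_mul.comp hM hM)) Primrec.id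

end prim

/-! ### correctness -/

/-- the cell with number `i` in the box -/
def cellOf (n i : ℕ) : Cell := (((i / (2 * n + 1) : ℕ) : ℤ) - n, ((i % (2 * n + 1) : ℕ) : ℤ) - n)

lemma cellOf_inj {n i j : ℕ} (h : cellOf n i = cellOf n j) : i = j := by
  unfold cellOf at h
  simp only [Prod.mk.injEq] at h
  have h1 : i / (2 * n + 1) = j / (2 * n + 1) := by omega
  have h2 : i % (2 * n + 1) = j % (2 * n + 1) := by omega
  rw [← Nat.div_add_mod i (2 * n + 1), ← Nat.div_add_mod j (2 * n + 1), h1, h2]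

lemma adj_cellOf {n i j : ℕ} : Adj (cellOf n i) (cellOf n j) ↔ AdjI (2 * n + 1) i j := by
  unfold Adj cellOf AdjI
  simp only
  generalize i / (2 * n + 1) = i1
  generalize i % (2 * n + 1) = i2
  generalize j / (2 * n + 1) = j1
  generalize j % (2 * n + 1) = j2
  omega

lemma exists_cellOf {n : ℕ} {x : Cell} (hx : x ∈ box n) :
    ∃ i < (2 * n + 1) * (2 * n + 1), cellOf n i = x := by
  simp only [box, Finset.mem_product, Finset.mem_Icc] at hx
  obtain ⟨⟨h1, h2⟩, h3, h4⟩ := hx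
  obtain ⟨u, hu⟩ : ∃ u : ℕ, (u : ℤ) = x.1 + n := ⟨(x.1 + n).toNat, by omega⟩
  obtain ⟨w, hw⟩ : ∃ w : ℕ, (w : ℤ) = x.2 + n := ⟨(x.2 + n).toNat, by omega⟩
  have hu' : u < 2 * n + 1 := by omega
  have hw' : w < 2 * n + 1 := by omega
  refine ⟨w + (2 * n + 1) * u, ?_, ?_⟩
  · have : (2 * n + 1) * (u + 1) ≤ (2 * n + 1) * (2 * n + 1) := Nat.mul_le_mul_left _ hu'
    rw [Nat.mul_add] at this
    omega
  · unfold cellOf
    rw [Nat.add_mul_div_left _ _ (by omega), Nat.add_mul_mod_self_left, Nat.div_eq_of_lt hw',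
      Nat.mod_eq_of_lt hw']
    ext
    · push_cast; omega
    · simp only; omega

lemma cellOf_mem_box {n i : ℕ} (hi : i < (2 * n + 1) * (2 * n + 1)) : cellOf n i ∈ box n := by
  have h1 : i / (2 * n + 1) < 2 * n + 1 := Nat.div_lt_of_lt_mul hi
  have h2 : i % (2 * n + 1) < 2 * n + 1 := Nat.mod_lt _ (by omega)
  simp only [box, cellOf, Finset.mem_product, Finset.mem_Icc]
  generalize i / (2 * n + 1) = u at *
  generalize i % (2 * n + 1) = w at *
  omega

lemma cellOf_center (n : ℕ) : cellOf n (n * (2 * n + 1) + n) = 0 := by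
  unfold cellOf
  rw [show n * (2 * n + 1) + n = n + (2 * n + 1) * n by ring,
    Nat.add_mul_div_left _ _ (by omega), Nat.add_mul_mod_self_left,
    Nat.div_eq_of_lt (by omega : n < 2 * n + 1), Nat.mod_eq_of_lt (by omega : n < 2 * n + 1)]
  ext <;> simp

open Classical in
/-- the set of cells coded by `s` -/
noncomputable def F (n s : ℕ) : Finset Cell :=
  ((Finset.range ((2 * n + 1) * (2 * n + 1))).filter (fun i => bit s i)).image (cellOf n)

open Classical in
lemma mem_F {n s : ℕ} {x : Cell} :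
    x ∈ F n s ↔ ∃ i < (2 * n + 1) * (2 * n + 1), bit s i ∧ cellOf n i = x := by
  unfold F
  rw [Finset.mem_image]
  constructor
  · rintro ⟨i, hi, rfl⟩
    rw [Finset.mem_filter, Finset.mem_range] at hi
    exact ⟨i, hi.1, hi.2, rfl⟩
  · rintro ⟨i, hi, hb, rfl⟩
    exact ⟨i, Finset.mem_filter.2 ⟨Finset.mem_range.2 hi, hb⟩, rfl⟩

lemma cellOf_mem_F {n s i : ℕ} (hi : i < (2 * n + 1) * (2 * n + 1)) :
    cellOf n i ∈ F n s ↔ bit s i := by
  rw [mem_F]
  constructor
  · rintro ⟨j, _, hb, h⟩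
    rw [← cellOf_inj h]; exact hb
  · intro h
    exact ⟨i, hi, h, rfl⟩

lemma card_F (n s : ℕ) :
    (F n s).card = cntR (fun i s => bit s i) ((2 * n + 1) * (2 * n + 1)) s := by
  classical
  rw [cntR_eq]
  unfold F
  rw [Finset.card_image_of_injective _ (fun i j h => cellOf_inj h)]

/-- every subset of the box has a code -/
lemma exists_code (n : ℕ) (P : Finset Cell) (hP : P ⊆ box n) :
    ∃ s < 2 ^ ((2 * n + 1) * (2 * n + 1)), F n s = P := by
  classical
  set N := (2 * n + 1) * (2 * n + 1) with hN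
  refine ⟨Nat.ofBits (fun i : Fin N => decide (cellOf n i ∈ P)), Nat.ofBits_lt_two_pow _, ?_⟩
  ext x
  rw [mem_F]
  constructor
  · rintro ⟨i, hi, hb, rfl⟩
    unfold bit at hb
    rw [Nat.testBit_ofBits_lt _ _ hi] at hb
    simpa using hb
  · intro hx
    obtain ⟨i, hi, rfl⟩ := exists_cellOf (hP hx)
    refine ⟨i, hi, ?_, rfl⟩
    unfold bit
    rw [Nat.testBit_ofBits_lt _ _ hi]
    simpa using hx

lemma F_inj {n s s' : ℕ} (hs : s < 2 ^ ((2 * n + 1) * (2 * n + 1)))
    (hs' : s' < 2 ^ ((2 * n + 1) * (2 * n + 1))) (h : F n s = F n s') : s = s' := by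
  apply Nat.eq_of_testBit_eq
  intro i
  by_cases hi : i < (2 * n + 1) * (2 * n + 1)
  · have := (cellOf_mem_F (s := s) hi).symm.trans ((by rw [h]) : _ ↔ cellOf n i ∈ F n s')
    rw [cellOf_mem_F hi] at this
    unfold bit at this
    by_cases h1 : s.testBit i = true
    · rw [h1, this.1 h1]
    · rw [Bool.not_eq_true] at h1
      by_cases h2 : s'.testBit i = true
      · rw [this.2 h2] at h1
        exact absurd h1 (by simp)
      · rw [Bool.not_eq_true] at h2
        rw [h1, h2]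
  · have h1 : 2 ^ ((2 * n + 1) * (2 * n + 1)) ≤ 2 ^ i := Nat.pow_le_pow_right (by norm_num)
      (not_lt.1 hi)
    rw [Nat.testBit_eq_false_of_lt (lt_of_lt_of_le hs h1),
      Nat.testBit_eq_false_of_lt (lt_of_lt_of_le hs' h1)]

lemma F_subset (n s : ℕ) : F n s ⊆ box n := by
  intro x hx
  rw [mem_F] at hx
  obtain ⟨i, hi, _, rfl⟩ := hx
  exact cellOf_mem_box hi

lemma conn_F {n s : ℕ} (hne : (F n s).Nonempty) : Conn (F n s) ↔ ConnI (2 * n + 1) s := by
  constructor
  · intro h r _ h1 h2 h3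
    have hsub : F n r ⊆ F n s := by
      intro x hx
      rw [mem_F] at hx ⊢
      obtain ⟨i, hi, hb, rfl⟩ := hx
      exact ⟨i, hi, h1 i hi hb, rfl⟩
    have hrne : (F n r).Nonempty := by
      obtain ⟨i, hi, hb⟩ := h2
      exact ⟨cellOf n i, (cellOf_mem_F hi).2 hb⟩
    have hneq : F n r ≠ F n s := by
      intro he
      obtain ⟨i, hi, hb, hb'⟩ := h3
      apply hb'
      rw [← cellOf_mem_F hi, he, cellOf_mem_F hi]
      exact hb
    obtain ⟨x, hx, y, hy, hxy⟩ := exists_adj_cut h hsub hrne hneq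
    rw [Finset.mem_sdiff] at hy
    obtain ⟨i, hi, hb, rfl⟩ := mem_F.1 hx
    obtain ⟨j, hj, hb', rfl⟩ := mem_F.1 hy.1
    refine ⟨i, hi, j, hj, hb, hb', ?_, adj_cellOf.1 hxy⟩
    intro hbj
    exact hy.2 ((cellOf_mem_F hj).2 hbj)
  · intro h
    apply conn_of_cut hne
    intro R hR hRne hRneq
    obtain ⟨r, hr, rfl⟩ := exists_code n R (hR.trans (F_subset n s))
    have hcr : Crossed (2 * n + 1) r s := by
      apply h r hr
      · intro i hi hb
        rw [← cellOf_mem_F hi]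
        exact hR ((cellOf_mem_F hi).2 hb)
      · obtain ⟨x, hx⟩ := hRne
        obtain ⟨i, hi, hb, _⟩ := mem_F.1 hx
        exact ⟨i, hi, hb⟩
      · by_contra hcon
        push Not at hcon
        apply hRneq
        apply Finset.Subset.antisymm hR
        intro x hx
        obtain ⟨i, hi, hb, rfl⟩ := mem_F.1 hx
        exact (cellOf_mem_F hi).2 (hcon i hi hb)
    obtain ⟨i, hi, j, hj, h1, h2, h3, h4⟩ := hcr
    refine ⟨cellOf n i, (cellOf_mem_F hi).2 h1, cellOf n j, ?_, adj_cellOf.2 h4⟩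
    rw [Finset.mem_sdiff, cellOf_mem_F hj, cellOf_mem_F hj]
    exact ⟨h2, h3⟩

lemma center_lt (n : ℕ) : n * (2 * n + 1) + n < (2 * n + 1) * (2 * n + 1) := by
  nlinarith

lemma good_iff {n s : ℕ} : Good s n ↔ F n s ∈ A0 n := by
  rw [mem_A0, card_F]
  unfold Good
  have h0 : (0 : Cell) ∈ F n s ↔ bit s (n * (2 * n + 1) + n) := by
    rw [← cellOf_center n, cellOf_mem_F (center_lt n)]
  constructor
  · rintro ⟨h1, h2, h3⟩
    have : (0 : Cell) ∈ F n s := h0.2 h2
    exact ⟨h1, (conn_F ⟨_, this⟩).2 h3, this⟩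
  · rintro ⟨h1, h2, h3⟩
    exact ⟨h1, h0.1 h3, (conn_F ⟨_, h3⟩).1 h2⟩

theorem c_eq (n : ℕ) : c n = a n := by
  classical
  unfold c a
  rw [cntR_eq]
  apply Finset.card_bij (fun s _ => F n s)
  · intro s hs
    rw [Finset.mem_filter] at hs
    exact good_iff.1 hs.2
  · intro s hs s' hs' h
    rw [Finset.mem_filter, Finset.mem_range] at hs hs'
    exact F_inj hs.1 hs'.1 h
  · intro P hP
    have hsub : P ⊆ box n := by
      rw [mem_A0] at hP
      rw [← hP.1]
      exact subset_box hP.2.1 hP.2.2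
    obtain ⟨s, hs, rfl⟩ := exists_code n P hsub
    exact ⟨s, Finset.mem_filter.2 ⟨Finset.mem_range.2 hs, good_iff.2 hP⟩, rfl⟩

theorem primrec_a : Primrec a := primrec_c.of_eq c_eq

end Pool.Agent.N789.Kl
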