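import Mathlib

/-!
Connected finite sets of cells of the square lattice: splitting into two large connected parts.
-/

namespace Pool.Agent.N789.Kl

open Relation

/-- A cell of the square lattice. -/
abbrev Cell := ℤ × ℤ

/-- Two cells are adjacent when they share an edge. -/
def Adj (c d : Cell) : Prop :=
  (c.1 = d.1 ∧ (c.2 = d.2 + 1 ∨ d.2 = c.2 + 1)) ∨ (c.2 = d.2 ∧ (c.1 = d.1 + 1 ∨ d.1 = c.1 + 1))

/-- A finite set of cells is connected under edge-adjacency. -/
def Conn (P : Finset Cell) : Prop :=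
  P.Nonempty ∧ ∀ a ∈ P, ∀ b ∈ P, ReflTransGen (fun c d => Adj c d ∧ c ∈ P ∧ d ∈ P) a b

lemma Adj.symm {c d : Cell} (h : Adj c d) : Adj d c := by
  unfold Adj at *
  omega

lemma Adj.ne {c d : Cell} (h : Adj c d) : c ≠ d := by
  rintro rfl
  unfold Adj at h
  omega

lemma rtg_symm {P : Finset Cell} {a b : Cell}
    (h : ReflTransGen (fun c d => Adj c d ∧ c ∈ P ∧ d ∈ P) a b) :
    ReflTransGen (fun c d => Adj c d ∧ c ∈ P ∧ d ∈ P) b a := by
  induction h with
  | refl => exact ReflTransGen.refl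
  | tail _ hbc ih => exact ReflTransGen.head ⟨hbc.1.symm, hbc.2.2, hbc.2.1⟩ ih

lemma rtg_mono {P Q : Finset Cell} (hPQ : P ⊆ Q) {a b : Cell}
    (h : ReflTransGen (fun c d => Adj c d ∧ c ∈ P ∧ d ∈ P) a b) :
    ReflTransGen (fun c d => Adj c d ∧ c ∈ Q ∧ d ∈ Q) a b :=
  ReflTransGen.mono (r := fun c d => Adj c d ∧ c ∈ P ∧ d ∈ P)
    (fun _ _ h => ⟨h.1, hPQ h.2.1, hPQ h.2.2⟩) _ _ h

/-- To prove connectedness it suffices to reach everything from one cell. -/
lemma conn_of_root {P : Finset Cell} {r : Cell} (hr : r ∈ P)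
    (h : ∀ b ∈ P, ReflTransGen (fun c d => Adj c d ∧ c ∈ P ∧ d ∈ P) r b) : Conn P :=
  ⟨⟨r, hr⟩, fun a ha b hb => (rtg_symm (h a ha)).trans (h b hb)⟩

lemma conn_union {A B : Finset Cell} (hA : Conn A) (hB : Conn B) {a b : Cell} (ha : a ∈ A)
    (hb : b ∈ B) (hab : Adj a b) : Conn (A ∪ B) := by
  apply conn_of_root (r := a) (Finset.mem_union_left _ ha)
  intro c hc
  rcases Finset.mem_union.1 hc with hc | hc
  · exact rtg_mono Finset.subset_union_left (hA.2 a ha c hc)
  · refine ReflTransGen.head (b := b) ⟨hab, Finset.mem_union_left _ ha,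
      Finset.mem_union_right _ hb⟩ ?_
    exact rtg_mono Finset.subset_union_right (hB.2 b hb c hc)

open Classical in
/-- The component of `v` in `P`. -/
noncomputable def comp (P : Finset Cell) (v : Cell) : Finset Cell :=
  P.filter (fun w => ReflTransGen (fun c d => Adj c d ∧ c ∈ P ∧ d ∈ P) v w)

open Classical in
lemma mem_comp {P : Finset Cell} {v w : Cell} :
    w ∈ comp P v ↔ w ∈ P ∧ ReflTransGen (fun c d => Adj c d ∧ c ∈ P ∧ d ∈ P) v w := by
  unfold comp
  exact Finset.mem_filter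

lemma comp_subset {P : Finset Cell} {v : Cell} : comp P v ⊆ P := by
  intro w hw
  exact (mem_comp.1 hw).1

lemma rtg_comp {P : Finset Cell} {v w : Cell}
    (h : ReflTransGen (fun c d => Adj c d ∧ c ∈ P ∧ d ∈ P) v w) :
    ReflTransGen (fun c d => Adj c d ∧ c ∈ comp P v ∧ d ∈ comp P v) v w := by
  induction h with
  | refl => exact ReflTransGen.refl
  | tail hab hbc ih =>
    refine ih.tail ⟨hbc.1, mem_comp.2 ⟨hbc.2.1, hab⟩, mem_comp.2 ⟨hbc.2.2, hab.tail hbc⟩⟩

lemma conn_comp {P : Finset Cell} {v : Cell} (hv : v ∈ P) : Conn (comp P v) := by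
  apply conn_of_root (r := v) (mem_comp.2 ⟨hv, ReflTransGen.refl⟩)
  intro b hb
  exact rtg_comp (mem_comp.1 hb).2

/-- Every cell of `B` other than `b` lies in the component of a neighbour of `b` in
`B.erase b`. -/
lemma exists_nbr {B : Finset Cell} (hB : Conn B) {b : Cell} (hb : b ∈ B) {w : Cell}
    (hw : w ∈ B.erase b) : ∃ v ∈ B.erase b, Adj b v ∧ w ∈ comp (B.erase b) v := by
  have key : ∀ w, ReflTransGen (fun c d => Adj c d ∧ c ∈ B ∧ d ∈ B) b w → w ≠ b →
      ∃ v ∈ B.erase b, Adj b v ∧ w ∈ comp (B.erase b) v := by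
    intro w h
    induction h with
    | refl => intro h; exact absurd rfl h
    | @tail c d hbc hcd ih =>
      intro hdb
      by_cases hc : c = b
      · subst hc
        refine ⟨d, Finset.mem_erase.2 ⟨hdb, hcd.2.2⟩, hcd.1, mem_comp.2
          ⟨Finset.mem_erase.2 ⟨hdb, hcd.2.2⟩, ReflTransGen.refl⟩⟩
      · obtain ⟨v, hv, hbv, hcv⟩ := ih hc
        refine ⟨v, hv, hbv, mem_comp.2 ⟨Finset.mem_erase.2 ⟨hdb, hcd.2.2⟩, ?_⟩⟩
        exact (mem_comp.1 hcv).2.tail ⟨hcd.1, Finset.mem_erase.2 ⟨hc, hcd.2.1⟩,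
          Finset.mem_erase.2 ⟨hdb, hcd.2.2⟩⟩
  have hw' := Finset.mem_erase.1 hw
  exact key w (hB.2 b hb w hw'.2) hw'.1

lemma comp_eq_of_mem {P : Finset Cell} {u v w : Cell} (hu : w ∈ comp P u) (hv : w ∈ comp P v) :
    comp P u ⊆ comp P v := by
  intro x hx
  rw [mem_comp] at *
  exact ⟨hx.1, hv.2.trans ((rtg_symm hu.2).trans hx.2)⟩

lemma conn_sdiff {B : Finset Cell} (hB : Conn B) {b v : Cell} (hb : b ∈ B)
    (hv : v ∈ B.erase b) : Conn (B \ comp (B.erase b) v) := by
  have hbC : b ∉ comp (B.erase b) v := fun h => by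
    have := comp_subset h
    simp at this
  apply conn_of_root (r := b) (Finset.mem_sdiff.2 ⟨hb, hbC⟩)
  intro w hw
  rw [Finset.mem_sdiff] at hw
  by_cases hwb : w = b
  · subst hwb; exact ReflTransGen.refl
  obtain ⟨u, hu, hbu, hwu⟩ := exists_nbr hB hb (Finset.mem_erase.2 ⟨hwb, hw.1⟩)
  have hdisj : ∀ x ∈ comp (B.erase b) u, x ∈ B \ comp (B.erase b) v := by
    intro x hx
    rw [Finset.mem_sdiff]
    refine ⟨Finset.erase_subset _ _ (comp_subset hx), fun hxv => ?_⟩
    exact hw.2 (comp_eq_of_mem hx hxv hwu)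
  have huu : u ∈ comp (B.erase b) u := mem_comp.2 ⟨hu, ReflTransGen.refl⟩
  refine ReflTransGen.head (b := u) ⟨hbu, Finset.mem_sdiff.2 ⟨hb, hbC⟩, hdisj u huu⟩ ?_
  exact ReflTransGen.mono (r := fun c d => Adj c d ∧ c ∈ comp (B.erase b) u ∧
    d ∈ comp (B.erase b) u) (fun c d h => ⟨h.1, hdisj _ h.2.1, hdisj _ h.2.2⟩) _ _
    (rtg_comp (mem_comp.1 hwu).2)

/-- the four neighbours -/
def nbrs (b : Cell) : Finset Cell :=
  {(b.1 + 1, b.2), (b.1 - 1, b.2), (b.1, b.2 + 1), (b.1, b.2 - 1)}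

lemma mem_nbrs {b v : Cell} (h : Adj b v) : v ∈ nbrs b := by
  obtain ⟨b1, b2⟩ := b
  obtain ⟨v1, v2⟩ := v
  simp only [Adj, nbrs, Finset.mem_insert, Finset.mem_singleton, Prod.mk.injEq] at *
  omega

lemma card_nbrs (b : Cell) : (nbrs b).card ≤ 4 := by
  unfold nbrs
  exact Finset.card_le_four

lemma exists_adj_cut {P R : Finset Cell} (hP : Conn P) (hRP : R ⊆ P) (hR : R.Nonempty)
    (hne : R ≠ P) : ∃ a ∈ R, ∃ b ∈ P \ R, Adj a b := by
  obtain ⟨x, hx⟩ := hR
  obtain ⟨y, hy⟩ : (P \ R).Nonempty := by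
    rw [Finset.sdiff_nonempty]
    intro h
    exact hne (Finset.Subset.antisymm hRP h)
  by_contra hcon
  push Not at hcon
  have key : ∀ z, ReflTransGen (fun c d => Adj c d ∧ c ∈ P ∧ d ∈ P) x z → z ∈ R := by
    intro z h
    induction h with
    | refl => exact hx
    | @tail c d _ hcd ih =>
      by_contra hd
      exact hcon c ih d (Finset.mem_sdiff.2 ⟨hcd.2.2, hd⟩) hcd.1
  rw [Finset.mem_sdiff] at hy
  exact hy.2 (key y (hP.2 x (hRP hx) y hy.1))

lemma conn_of_cut {P : Finset Cell} (hne : P.Nonempty)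
    (h : ∀ R ⊆ P, R.Nonempty → R ≠ P → ∃ a ∈ R, ∃ b ∈ P \ R, Adj a b) : Conn P := by
  obtain ⟨r, hr⟩ := hne
  have hC : comp P r = P := by
    by_contra hcon
    obtain ⟨a, ha, b, hb, hab⟩ := h (comp P r) comp_subset
      ⟨r, mem_comp.2 ⟨hr, ReflTransGen.refl⟩⟩ hcon
    rw [Finset.mem_sdiff] at hb
    apply hb.2
    rw [mem_comp] at ha ⊢
    exact ⟨hb.1, ha.2.tail ⟨hab, ha.1, hb.1⟩⟩
  rw [← hC]
  exact conn_comp hr

/-- one step: a connected set `B` attached to `A` through `b`; some component of `B \ b` is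
large. -/
lemma exists_large {A B : Finset Cell} (hB : Conn B) (hAB : Disjoint A B) {a b : Cell}
    (ha : a ∈ A) (hb : b ∈ B) (hab : Adj b a) (h2 : 2 ≤ B.card) :
    ∃ v ∈ B.erase b, B.card ≤ 3 * (comp (B.erase b) v).card + 1 := by
  classical
  set N := ((nbrs b).erase a).filter (fun v => v ∈ B.erase b) with hN
  have hNc : N.card ≤ 3 := by
    have h1 : ((nbrs b).erase a).card ≤ 3 := by
      rw [Finset.card_erase_of_mem (mem_nbrs hab)]
      have := card_nbrs b
      omega
    exact le_trans (Finset.card_filter_le _ _) h1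
  have hcov : B.erase b ⊆ N.biUnion (fun v => comp (B.erase b) v) := by
    intro w hw
    obtain ⟨v, hv, hbv, hwv⟩ := exists_nbr hB hb hw
    rw [Finset.mem_biUnion]
    refine ⟨v, ?_, hwv⟩
    rw [hN, Finset.mem_filter, Finset.mem_erase]
    refine ⟨⟨?_, mem_nbrs hbv⟩, hv⟩
    rintro rfl
    exact (Finset.disjoint_left.1 hAB ha) (Finset.erase_subset _ _ hv)
  have hcard : B.card - 1 ≤ ∑ v ∈ N, (comp (B.erase b) v).card := by
    rw [← Finset.card_erase_of_mem hb]
    exact le_trans (Finset.card_le_card hcov) Finset.card_biUnion_le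
  have hNne : N.Nonempty := by
    by_contra h
    rw [Finset.not_nonempty_iff_eq_empty] at h
    rw [h] at hcard
    simp at hcard
    omega
  obtain ⟨v, hvN, hvmax⟩ := Finset.exists_max_image N (fun v => (comp (B.erase b) v).card) hNne
  refine ⟨v, ?_, ?_⟩
  · rw [hN, Finset.mem_filter] at hvN
    exact hvN.2
  · have h3 : ∑ v ∈ N, (comp (B.erase b) v).card ≤ N.card * (comp (B.erase b) v).card := by
      have := Finset.sum_le_card_nsmul N (fun v => (comp (B.erase b) v).card) _
        (fun x hx => hvmax x hx)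
      simpa using this
    have h4 : N.card * (comp (B.erase b) v).card ≤ 3 * (comp (B.erase b) v).card :=
      Nat.mul_le_mul_right _ hNc
    omega

/-- **Splitting lemma.** A connected set of `n ≥ 2` cells is the disjoint union of two adjacent
connected sets each with at least `(n - 1) / 4` cells. -/
theorem exists_split {P : Finset Cell} (hP : Conn P) (h2 : 2 ≤ P.card) :
    ∃ A B : Finset Cell, A ∪ B = P ∧ Disjoint A B ∧ Conn A ∧ Conn B ∧
      P.card ≤ 4 * A.card + 1 ∧ P.card ≤ 4 * B.card + 1 ∧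
      ∃ a ∈ A, ∃ b ∈ B, Adj a b := by
  classical
  -- the admissible sets `A`
  set S := P.powerset.filter (fun A => Conn A ∧ Conn (P \ A) ∧ A.card ≤ (P \ A).card) with hS
  have hSne : S.Nonempty := by
    obtain ⟨b, hb⟩ := hP.1
    have : (P.erase b).Nonempty := by
      rw [← Finset.card_pos, Finset.card_erase_of_mem hb]; omega
    obtain ⟨v, hv⟩ := this
    set C := comp (P.erase b) v with hC
    have hCP : C ⊆ P := comp_subset.trans (Finset.erase_subset _ _)
    have h1 : Conn C := conn_comp hv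
    have h2 : Conn (P \ C) := conn_sdiff hP hb hv
    rcases le_total C.card (P \ C).card with h | h
    · exact ⟨C, by rw [hS, Finset.mem_filter, Finset.mem_powerset]; exact ⟨hCP, h1, h2, h⟩⟩
    · refine ⟨P \ C, ?_⟩
      rw [hS, Finset.mem_filter, Finset.mem_powerset, Finset.sdiff_sdiff_eq_self hCP]
      exact ⟨Finset.sdiff_subset, h2, h1, h⟩
  obtain ⟨A, hAS, hAmax⟩ := Finset.exists_max_image S (fun A => A.card) hSne
  have hAS' := hAS
  rw [hS, Finset.mem_filter, Finset.mem_powerset] at hAS'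
  obtain ⟨hAP, hA, hB, hle⟩ := hAS'
  set B := P \ A with hBdef
  have hdisj : Disjoint A B := Finset.disjoint_sdiff
  have hun : A ∪ B = P := Finset.union_sdiff_of_subset hAP
  have hneAP : A ≠ P := by
    intro h
    have : B = ∅ := by rw [hBdef, h, Finset.sdiff_self]
    rw [this] at hB
    exact Finset.not_nonempty_empty hB.1
  obtain ⟨a, ha, b, hb, hab⟩ := exists_adj_cut hP hAP hA.1 hneAP
  have hcardP : P.card = A.card + B.card := by
    rw [← hun, Finset.card_union_of_disjoint hdisj]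
  have hApos : 0 < A.card := Finset.card_pos.2 hA.1
  have hmain : B.card ≤ 3 * A.card + 1 := by
    by_contra hcon
    push Not at hcon
    obtain ⟨v, hv, hlarge⟩ := exists_large hB hdisj ha hb hab.symm (by omega)
    set C := comp (B.erase b) v with hC
    have hCB : C ⊆ B := comp_subset.trans (Finset.erase_subset _ _)
    have hCP : C ⊆ P := hCB.trans Finset.sdiff_subset
    have hC1 : Conn C := conn_comp hv
    have hbC : b ∉ C := fun h => by
      have := comp_subset h
      simp at this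
    have hPC : P \ C = A ∪ (B \ C) := by
      ext x
      simp only [Finset.mem_sdiff, Finset.mem_union, hBdef]
      constructor
      · rintro ⟨h1, h2⟩
        by_cases hxA : x ∈ A
        · exact Or.inl hxA
        · exact Or.inr ⟨⟨h1, hxA⟩, h2⟩
      · rintro (h | h)
        · exact ⟨hAP h, fun hx => (Finset.disjoint_left.1 hdisj h) (hCB hx)⟩
        · exact ⟨h.1.1, h.2⟩
    have hC2 : Conn (P \ C) := by
      rw [hPC]
      exact conn_union hA (conn_sdiff hB hb hv) ha (Finset.mem_sdiff.2 ⟨hb, hbC⟩) hab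
    have hgt : A.card + 1 ≤ (P \ C).card := by
      have : insert b A ⊆ P \ C := by
        rw [hPC]
        intro x hx
        rcases Finset.mem_insert.1 hx with rfl | hx
        · exact Finset.mem_union_right _ (Finset.mem_sdiff.2 ⟨hb, hbC⟩)
        · exact Finset.mem_union_left _ hx
      have h5 := Finset.card_le_card this
      rw [Finset.card_insert_of_notMem (fun h => (Finset.disjoint_left.1 hdisj h) hb)] at h5
      exact h5
    rcases le_total C.card (P \ C).card with h | h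
    · have hCS : C ∈ S := by
        rw [hS, Finset.mem_filter, Finset.mem_powerset]; exact ⟨hCP, hC1, hC2, h⟩
      have := hAmax C hCS
      omega
    · have hCS : P \ C ∈ S := by
        rw [hS, Finset.mem_filter, Finset.mem_powerset, Finset.sdiff_sdiff_eq_self hCP]
        exact ⟨Finset.sdiff_subset, hC2, hC1, h⟩
      have := hAmax _ hCS
      omega
  exact ⟨A, B, hun, hdisj, hA, hB, by omega, by omega, a, ha, b, hb, hab⟩

end Pool.Agent.N789.Kl
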