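import Pool.Agent.N789.Kl.Conn

/-!
Counting fixed polyominoes: canonical representatives, super-multiplicativity, and the
splitting inequality.
-/

namespace Pool.Agent.N789.Kl

open Relation

/-- translate of a finite set of cells -/
def shift (v : Cell) (P : Finset Cell) : Finset Cell := P.map (Equiv.addRight v).toEmbedding

lemma mem_shift {v : Cell} {P : Finset Cell} {c : Cell} : c ∈ shift v P ↔ c - v ∈ P := by
  simp only [shift, Finset.mem_map, Equiv.coe_toEmbedding, Equiv.coe_addRight]
  constructor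
  · rintro ⟨a, ha, rfl⟩
    simpa using ha
  · intro h
    exact ⟨c - v, h, by simp⟩

lemma card_shift (v : Cell) (P : Finset Cell) : (shift v P).card = P.card := by
  simp [shift]

lemma shift_shift (v w : Cell) (P : Finset Cell) : shift v (shift w P) = shift (w + v) P := by
  ext c
  simp only [mem_shift]
  rw [show c - v - w = c - (w + v) by abel]

lemma shift_zero (P : Finset Cell) : shift 0 P = P := by
  ext c
  simp [mem_shift]

lemma shift_union (v : Cell) (P Q : Finset Cell) : shift v (P ∪ Q) = shift v P ∪ shift v Q := by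
  ext c
  simp [mem_shift]

lemma adj_add {c d v : Cell} (h : Adj c d) : Adj (c + v) (d + v) := by
  unfold Adj at *
  simp only [Prod.fst_add, Prod.snd_add]
  omega

lemma conn_shift {P : Finset Cell} (h : Conn P) (v : Cell) : Conn (shift v P) := by
  obtain ⟨r, hr⟩ := h.1
  apply conn_of_root (r := r + v) (mem_shift.2 (by simpa using hr))
  intro b hb
  rw [mem_shift] at hb
  have key : ∀ z, ReflTransGen (fun c d => Adj c d ∧ c ∈ P ∧ d ∈ P) r z →
      ReflTransGen (fun c d => Adj c d ∧ c ∈ shift v P ∧ d ∈ shift v P) (r + v) (z + v) := by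
    intro z h
    induction h with
    | refl => exact ReflTransGen.refl
    | @tail c d _ hcd ih =>
      refine ih.tail ⟨adj_add hcd.1, mem_shift.2 ?_, mem_shift.2 ?_⟩
      · simpa using hcd.2.1
      · simpa using hcd.2.2
  have := key (b - v) (h.2 r hr _ hb)
  simpa using this

/-! ### lexicographic order -/

/-- lexicographic comparison of cells -/
def lle (c d : Cell) : Prop := toLex c ≤ toLex d

instance : DecidableRel lle := fun c d => by unfold lle; infer_instance

lemma lle_iff {c d : Cell} : lle c d ↔ c.1 < d.1 ∨ (c.1 = d.1 ∧ c.2 ≤ d.2) := by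
  unfold lle
  rw [Prod.Lex.toLex_le_toLex]

lemma lle_add {c d v : Cell} : lle (c + v) (d + v) ↔ lle c d := by
  simp only [lle_iff, Prod.fst_add, Prod.snd_add]
  omega

/-- number of cells of `P` that are at most `x` -/
def rk (P : Finset Cell) (x : Cell) : ℕ := (P.filter (fun c => lle c x)).card

lemma rk_inj {P : Finset Cell} {x y : Cell} (hx : x ∈ P) (hy : y ∈ P) (h : rk P x = rk P y) :
    x = y := by
  have key : ∀ x y : Cell, y ∈ P → lle x y → x ≠ y → rk P x < rk P y := by
    intro x y hy hxy hne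
    apply Finset.card_lt_card
    rw [Finset.ssubset_iff_of_subset]
    · refine ⟨y, Finset.mem_filter.2 ⟨hy, le_refl _⟩, ?_⟩
      rw [Finset.mem_filter]
      rintro ⟨_, h⟩
      apply hne
      rw [lle_iff] at h hxy
      ext <;> omega
    · intro c hc
      rw [Finset.mem_filter] at *
      refine ⟨hc.1, le_trans hc.2 hxy⟩
  by_contra hne
  rcases le_total (toLex x) (toLex y) with h1 | h1
  · have := key x y hy h1 hne; omega
  · have := key y x hx h1 (Ne.symm hne); omega

lemma rk_shift (P : Finset Cell) (x v : Cell) : rk (shift v P) (x + v) = rk P x := by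
  unfold rk
  rw [← card_shift v (P.filter (fun c => lle c x))]
  congr 1
  ext c
  simp only [Finset.mem_filter, mem_shift]
  have : lle (c - v) x ↔ lle c (x + v) := by
    rw [← lle_add (c := c - v) (d := x) (v := v)]; simp
  rw [this]

lemma exists_lmax {P : Finset Cell} (h : P.Nonempty) : ∃ x ∈ P, ∀ c ∈ P, lle c x :=
  Finset.exists_max_image P (fun c => toLex c) h

lemma exists_lmin {P : Finset Cell} (h : P.Nonempty) : ∃ x ∈ P, ∀ c ∈ P, lle x c :=
  Finset.exists_min_image P (fun c => toLex c) h

/-- two translates that both contain the origin at the same rank are equal -/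
lemma shift_eq_of_rk {P Q : Finset Cell} {v : Cell} (hQ : Q = shift v P) (hP0 : (0 : Cell) ∈ P)
    (hQ0 : (0 : Cell) ∈ Q) (h : rk P 0 = rk Q 0) : P = Q := by
  subst hQ
  have h1 : (-v) ∈ P := by simpa [mem_shift] using hQ0
  have h2 : rk (shift v P) 0 = rk P (-v) := by
    have := rk_shift P (-v) v
    simpa using this
  have h3 : (0 : Cell) = -v := rk_inj hP0 h1 (by rw [h, h2])
  have : v = 0 := by
    have := congrArg Neg.neg h3
    simpa using this.symm
  rw [this, shift_zero]

/-! ### the finite sets of polyominoes -/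

/-- a box -/
noncomputable def box (n : ℕ) : Finset Cell := Finset.Icc (-(n : ℤ)) n ×ˢ Finset.Icc (-(n : ℤ)) n

/-- the `ℓ¹` norm -/
def nrm (c : Cell) : ℕ := c.1.natAbs + c.2.natAbs

lemma nrm_adj {c d : Cell} (h : Adj c d) : nrm d ≤ nrm c + 1 := by
  unfold Adj at h
  unfold nrm
  omega

lemma nrm_lt {P : Finset Cell} (hP : Conn P) (h0 : (0 : Cell) ∈ P) {c : Cell} (hc : c ∈ P) :
    nrm c < P.card := by
  have key : ∀ z, ReflTransGen (fun c d => Adj c d ∧ c ∈ P ∧ d ∈ P) 0 z →
      ∀ r ≤ nrm z, ∃ w ∈ P, nrm w = r := by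
    intro z h
    induction h with
    | refl => intro r hr; exact ⟨0, h0, by simp [nrm] at *; omega⟩
    | @tail c d _ hcd ih =>
      intro r hr
      by_cases h : r ≤ nrm c
      · exact ih r h
      · have := nrm_adj hcd.1
        exact ⟨d, hcd.2.2, by omega⟩
  have h1 : Finset.range (nrm c + 1) ⊆ P.image nrm := by
    intro r hr
    rw [Finset.mem_range] at hr
    obtain ⟨w, hw, hwr⟩ := key c (hP.2 0 h0 c hc) r (by omega)
    exact Finset.mem_image.2 ⟨w, hw, hwr⟩
  have h2 := Finset.card_le_card h1
  rw [Finset.card_range] at h2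
  have h3 : (P.image nrm).card ≤ P.card := Finset.card_image_le
  omega

lemma subset_box {P : Finset Cell} (hP : Conn P) (h0 : (0 : Cell) ∈ P) : P ⊆ box P.card := by
  intro c hc
  have := nrm_lt hP h0 hc
  unfold nrm at this
  simp only [box, Finset.mem_product, Finset.mem_Icc]
  omega

open Classical in
/-- polyominoes with `n` cells containing the origin -/
noncomputable def A0 (n : ℕ) : Finset (Finset Cell) :=
  (box n).powerset.filter (fun P => P.card = n ∧ Conn P ∧ (0 : Cell) ∈ P)

open Classical in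
lemma mem_A0 {n : ℕ} {P : Finset Cell} : P ∈ A0 n ↔ P.card = n ∧ Conn P ∧ (0 : Cell) ∈ P := by
  unfold A0
  rw [Finset.mem_filter, Finset.mem_powerset]
  constructor
  · exact fun h => h.2
  · rintro ⟨h1, h2, h3⟩
    refine ⟨?_, h1, h2, h3⟩
    rw [← h1]
    exact subset_box h2 h3

open Classical in
/-- canonical polyominoes: the lexicographically largest cell is the origin -/
noncomputable def Tm (n : ℕ) : Finset (Finset Cell) :=
  (A0 n).filter (fun P => ∀ c ∈ P, lle c 0)

open Classical in
lemma mem_Tm {n : ℕ} {P : Finset Cell} :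
    P ∈ Tm n ↔ P.card = n ∧ Conn P ∧ (0 : Cell) ∈ P ∧ ∀ c ∈ P, lle c 0 := by
  unfold Tm
  rw [Finset.mem_filter, mem_A0]
  tauto

lemma Tm_subset (n : ℕ) : Tm n ⊆ A0 n := by
  intro P hP
  rw [mem_Tm] at hP
  rw [mem_A0]
  exact ⟨hP.1, hP.2.1, hP.2.2.1⟩

/-- every connected set has a canonical translate -/
lemma exists_canon {P : Finset Cell} (hP : Conn P) : ∃ v, shift v P ∈ Tm P.card := by
  obtain ⟨x, hx, hmax⟩ := exists_lmax hP.1
  refine ⟨-x, ?_⟩
  rw [mem_Tm]
  refine ⟨card_shift _ _, conn_shift hP _, mem_shift.2 (by simpa using hx), ?_⟩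
  intro c hc
  rw [mem_shift] at hc
  have := hmax _ hc
  rw [← lle_add (v := x)]
  simpa using this

lemma rk_Tm {n : ℕ} {P : Finset Cell} (hP : P ∈ Tm n) : rk P 0 = n := by
  rw [mem_Tm] at hP
  unfold rk
  rw [Finset.filter_true_of_mem hP.2.2.2, hP.1]

lemma Tm_eq_of_shift {n : ℕ} {P Q : Finset Cell} {v : Cell} (hP : P ∈ Tm n) (hQ : Q ∈ Tm n)
    (h : Q = shift v P) : P = Q := by
  apply shift_eq_of_rk h (mem_Tm.1 hP).2.2.1 (mem_Tm.1 hQ).2.2.1
  rw [rk_Tm hP, rk_Tm hQ]

/-! ### The statement-level definitions -/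

/-- An `n`-omino: a set of `n` cells that is connected under edge-adjacency. -/
def Omino (n : ℕ) : Type := {P : Finset Cell // P.card = n ∧ Conn P}

/-- Translation equivalence of `n`-ominoes. -/
def transSetoid (n : ℕ) : Setoid (Omino n) where
  r P Q := ∃ v : Cell, Q.1 = P.1.map (Equiv.addRight v).toEmbedding
  iseqv := by
    refine ⟨fun P => ⟨0, (shift_zero P.1).symm⟩, ?_, ?_⟩
    · rintro P Q ⟨v, hv⟩
      refine ⟨-v, ?_⟩
      change P.1 = shift (-v) Q.1
      rw [hv]
      change P.1 = shift (-v) (shift v P.1)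
      rw [shift_shift]
      simp [shift_zero]
    · rintro P Q R ⟨v, hv⟩ ⟨w, hw⟩
      refine ⟨v + w, ?_⟩
      rw [hw, hv]
      exact shift_shift w v P.1

/-- The number of fixed `n`-ominoes (classes of `n`-ominoes modulo translations). -/
noncomputable def t (n : ℕ) : ℕ := Nat.card (Quotient (transSetoid n))

lemma t_eq (n : ℕ) : t n = (Tm n).card := by
  have : Nat.card (Quotient (transSetoid n)) = Nat.card (Tm n) := by
    symm
    let f : Tm n → Quotient (transSetoid n) := fun P =>
      Quotient.mk (transSetoid n) ⟨P.1, (mem_Tm.1 P.2).1, (mem_Tm.1 P.2).2.1⟩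
    apply Nat.card_congr
    apply Equiv.ofBijective f
    constructor
    · intro P Q h
      have h' := Quotient.exact h
      obtain ⟨v, hv⟩ := h'
      exact Subtype.ext (Tm_eq_of_shift P.2 Q.2 hv)
    · intro q
      induction q using Quotient.inductionOn with
      | h P =>
        obtain ⟨v, hv⟩ := exists_canon P.2.2
        rw [P.2.1] at hv
        refine ⟨⟨shift v P.1, hv⟩, ?_⟩
        apply Quotient.sound
        refine ⟨-v, ?_⟩
        change P.1 = shift (-v) (shift v P.1)
        rw [shift_shift]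
        simp [shift_zero]
  unfold t
  rw [this]
  simp

/-- the number of `n`-ominoes containing the origin -/
noncomputable def a (n : ℕ) : ℕ := (A0 n).card

lemma t_le_a (n : ℕ) : t n ≤ a n := by
  rw [t_eq]
  exact Finset.card_le_card (Tm_subset n)

open Classical in
lemma a_le (n : ℕ) : a n ≤ n * t n := by
  rw [t_eq]
  have hc : ∀ P ∈ A0 n, ∃ v, shift v P ∈ Tm n := by
    intro P hP
    rw [mem_A0] at hP
    have := exists_canon hP.2.1
    rwa [hP.1] at this
  choose! f hf using hc
  have : (A0 n).card ≤ (Finset.Icc 1 n ×ˢ Tm n).card := by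
    apply Finset.card_le_card_of_injOn (fun P => (rk P 0, shift (f P) P))
    · intro P hP
      rw [Finset.mem_coe] at hP
      simp only [Finset.coe_product, Set.mem_prod, Finset.mem_coe, Finset.mem_Icc]
      refine ⟨⟨?_, ?_⟩, hf P hP⟩
      · have h0 := (mem_A0.1 hP).2.2
        apply Finset.card_pos.2
        exact ⟨0, Finset.mem_filter.2 ⟨h0, le_refl _⟩⟩
      · have h1 := (mem_A0.1 hP).1
        rw [← h1]
        exact Finset.card_le_card (Finset.filter_subset _ _)
    · intro P hP Q hQ h
      rw [Finset.mem_coe] at hP hQ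
      simp only [Prod.mk.injEq] at h
      have hQP : Q = shift (f P - f Q) P := by
        have : shift (-(f Q)) (shift (f P) P) = shift (-(f Q)) (shift (f Q) Q) := by rw [h.2]
        rw [shift_shift, shift_shift] at this
        rw [show f Q + -(f Q) = 0 by abel, shift_zero] at this
        rw [sub_eq_add_neg]; exact this.symm
      exact shift_eq_of_rk hQP (mem_A0.1 hP).2.2 (mem_A0.1 hQ).2.2 h.1
  rw [Finset.card_product, Nat.card_Icc] at this
  simpa [a] using this

open Classical in
/-- super-multiplicativity (concatenation) -/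
theorem t_mul_le (m n : ℕ) : t m * t n ≤ t (m + n) := by
  rw [t_eq, t_eq, t_eq]
  -- for each canonical `Q` a translate whose smallest cell is `(0,1)`
  have hc : ∀ Q ∈ Tm n, ∃ v, (0, 1) ∈ shift v Q ∧ ∀ c ∈ shift v Q, lle (0, 1) c := by
    intro Q hQ
    obtain ⟨x, hx, hmin⟩ := exists_lmin (mem_Tm.1 hQ).2.1.1
    refine ⟨(0, 1) - x, mem_shift.2 (by simpa using hx), ?_⟩
    intro c hc
    rw [mem_shift] at hc
    have := hmin _ hc
    rw [← lle_add (v := (0, 1) - x)] at this
    simpa using this
  choose! f hf1 hf2 using hc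
  set U : Finset Cell × Finset Cell → Finset Cell := fun p => p.1 ∪ shift (f p.2) p.2 with hU
  have hlt : ∀ p ∈ Tm m ×ˢ Tm n, Disjoint p.1 (shift (f p.2) p.2) := by
    intro p hp
    rw [Finset.mem_product] at hp
    rw [Finset.disjoint_left]
    intro c hc1 hc2
    have h1 := (mem_Tm.1 hp.1).2.2.2 c hc1
    have h2 := hf2 _ hp.2 c hc2
    rw [lle_iff] at h1 h2
    simp at h1 h2
    omega
  have hUconn : ∀ p ∈ Tm m ×ˢ Tm n, Conn (U p) := by
    intro p hp
    rw [Finset.mem_product] at hp
    apply conn_union (mem_Tm.1 hp.1).2.1 (conn_shift (mem_Tm.1 hp.2).2.1 _)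
      (mem_Tm.1 hp.1).2.2.1 (hf1 _ hp.2)
    unfold Adj
    simp
  have hUcard : ∀ p ∈ Tm m ×ˢ Tm n, (U p).card = m + n := by
    intro p hp
    rw [hU]
    simp only
    rw [Finset.card_union_of_disjoint (hlt p hp), card_shift]
    rw [Finset.mem_product] at hp
    rw [(mem_Tm.1 hp.1).1, (mem_Tm.1 hp.2).1]
  have hUrk : ∀ p ∈ Tm m ×ˢ Tm n, (U p).filter (fun c => lle c 0) = p.1 := by
    intro p hp
    rw [Finset.mem_product] at hp
    ext c
    rw [Finset.mem_filter, hU, Finset.mem_union]
    constructor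
    · rintro ⟨h1 | h1, h2⟩
      · exact h1
      · exfalso
        have h3 := hf2 _ hp.2 c h1
        rw [lle_iff] at h2 h3
        simp at h2 h3
        omega
    · intro h
      exact ⟨Or.inl h, (mem_Tm.1 hp.1).2.2.2 c h⟩
  have hg : ∀ p ∈ Tm m ×ˢ Tm n, ∃ v, shift v (U p) ∈ Tm (m + n) := by
    intro p hp
    have := exists_canon (hUconn p hp)
    rwa [hUcard p hp] at this
  choose! g hg using hg
  rw [← Finset.card_product]
  apply Finset.card_le_card_of_injOn (fun p => shift (g p) (U p))
  · intro p hp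
    exact hg p hp
  · intro p hp q hq h
    rw [Finset.mem_coe] at hp hq
    simp only at h
    have hqp : U q = shift (g p - g q) (U p) := by
      have : shift (-(g q)) (shift (g p) (U p)) = shift (-(g q)) (shift (g q) (U q)) := by rw [h]
      rw [shift_shift, shift_shift] at this
      rw [show g q + -(g q) = 0 by abel, shift_zero] at this
      rw [sub_eq_add_neg]; exact this.symm
    have hp' := Finset.mem_product.1 hp
    have hq' := Finset.mem_product.1 hq
    have hUeq : U p = U q := by
      apply shift_eq_of_rk hqp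
      · exact Finset.mem_union_left _ (mem_Tm.1 hp'.1).2.2.1
      · exact Finset.mem_union_left _ (mem_Tm.1 hq'.1).2.2.1
      · unfold rk
        rw [hUrk p hp, hUrk q hq, (mem_Tm.1 hp'.1).1, (mem_Tm.1 hq'.1).1]
    have h1 : p.1 = q.1 := by rw [← hUrk p hp, ← hUrk q hq, hUeq]
    have h2 : shift (f p.2) p.2 = shift (f q.2) q.2 := by
      have e1 : shift (f p.2) p.2 = U p \ p.1 := by
        rw [hU]
        simp only
        rw [Finset.union_sdiff_left, Finset.sdiff_eq_self_of_disjoint (hlt p hp).symm]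
      have e2 : shift (f q.2) q.2 = U q \ q.1 := by
        rw [hU]
        simp only
        rw [Finset.union_sdiff_left, Finset.sdiff_eq_self_of_disjoint (hlt q hq).symm]
      rw [e1, e2, hUeq, h1]
    have h3 : q.2 = shift (f p.2 - f q.2) p.2 := by
      have : shift (-(f q.2)) (shift (f p.2) p.2) = shift (-(f q.2)) (shift (f q.2) q.2) := by
        rw [h2]
      rw [shift_shift, shift_shift] at this
      rw [show f q.2 + -(f q.2) = 0 by abel, shift_zero] at this
      rw [sub_eq_add_neg]; exact this.symm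
    exact Prod.ext h1 (Tm_eq_of_shift hp'.2 hq'.2 h3)

open Classical in
/-- the splitting inequality -/
theorem t_le_split {n : ℕ} (hn : 2 ≤ n) :
    t n ≤ ∑ p ∈ (Finset.HasAntidiagonal.antidiagonal n).filter (fun p => n ≤ 4 * p.1 + 1 ∧ n ≤ 4 * p.2 + 1),
      4 * (a p.1 * a p.2) := by
  rw [t_eq]
  set I := (Finset.HasAntidiagonal.antidiagonal n).filter (fun p => n ≤ 4 * p.1 + 1 ∧ n ≤ 4 * p.2 + 1) with hI
  -- the set of codes
  set W : Finset (Finset Cell × (Cell × Finset Cell)) :=
    I.biUnion (fun p => A0 p.1 ×ˢ (nbrs 0 ×ˢ A0 p.2)) with hW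
  have hWcard : W.card ≤ ∑ p ∈ I, 4 * (a p.1 * a p.2) := by
    refine le_trans Finset.card_biUnion_le (Finset.sum_le_sum ?_)
    intro p _
    rw [Finset.card_product, Finset.card_product]
    have := card_nbrs 0
    calc (A0 p.1).card * ((nbrs 0).card * (A0 p.2).card)
        ≤ (A0 p.1).card * (4 * (A0 p.2).card) :=
          Nat.mul_le_mul_left _ (Nat.mul_le_mul_right _ this)
      _ = 4 * (a p.1 * a p.2) := by unfold a; ring
  refine le_trans ?_ hWcard
  -- each canonical polyomino has a code
  have hc : ∀ P ∈ Tm n, ∃ w ∈ W, ∃ v, P = shift v (w.1 ∪ shift w.2.1 w.2.2) := by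
    intro P hP
    rw [mem_Tm] at hP
    obtain ⟨A, B, hAB, hdisj, hA, hB, h1, h2, x, hx, y, hy, hxy⟩ :=
      exists_split hP.2.1 (by omega)
    refine ⟨(shift (-x) A, (y - x, shift (-y) B)), ?_, x, ?_⟩
    · rw [hW, Finset.mem_biUnion]
      refine ⟨(A.card, B.card), ?_, ?_⟩
      · rw [hI, Finset.mem_filter, Finset.HasAntidiagonal.mem_antidiagonal]
        have hcard : A.card + B.card = n := by
          rw [← Finset.card_union_of_disjoint hdisj, hAB, hP.1]
        simp only
        refine ⟨hcard, by omega, by omega⟩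
      · simp only [Finset.mem_product]
        refine ⟨mem_A0.2 ⟨card_shift _ _, conn_shift hA _, mem_shift.2 (by simpa using hx)⟩,
          ?_, mem_A0.2 ⟨card_shift _ _, conn_shift hB _, mem_shift.2 (by simpa using hy)⟩⟩
        have := mem_nbrs (adj_add (v := -x) hxy)
        simpa [sub_eq_add_neg] using this
    · simp only
      rw [shift_union, shift_shift, shift_shift, shift_shift, ← hAB]
      congr 1
      · simp [shift_zero]
      · rw [show -y + (y - x + x) = 0 by abel, shift_zero]
  choose! f hf1 hf2 using hc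
  apply Finset.card_le_card_of_injOn f
  · intro P hP
    exact hf1 P hP
  · intro P hP Q hQ h
    rw [Finset.mem_coe] at hP hQ
    obtain ⟨v, hv⟩ := hf2 P hP
    obtain ⟨w, hw⟩ := hf2 Q hQ
    rw [← h] at hw
    set V := (f P).1 ∪ shift (f P).2.1 (f P).2.2 with hV
    have hQP : Q = shift (w - v) P := by
      rw [hv, shift_shift, hw]
      congr 1
      abel
    exact Tm_eq_of_shift hP hQ hQP

end Pool.Agent.N789.Kl
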